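import Pool.Agent.N889.AO.Stm

/-! # Functoriality lemmas -/

set_option autoImplicit false
set_option linter.unusedSectionVars false
open Polynomial Matrix

namespace Pool.Agent.N889.AO

section
variable {ι : Type} [Fintype ι] [DecidableEq ι] {c c' : ι → ι → ι → ℤ}
variable {R R' : Type} [CommRing R] [CommRing R']

lemma map_mulVec' (φ : R →+* R') (P : Matrix ι ι R) (x : ι → R) :
    (fun i => φ ((P *ᵥ x) i)) = (P.map φ) *ᵥ (fun i => φ (x i)) := by
  funext i
  simp [Matrix.mulVec, dotProduct, map_sum]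

lemma map_single' (φ : R →+* R') (i : ι) :
    (fun k => φ ((Pi.single i 1 : ι → R) k)) = (Pi.single i 1 : ι → R') := by
  funext k
  by_cases h : k = i
  · subst h; simp
  · simp [Pi.single_eq_of_ne h]

lemma IsMor.map (φ : R →+* R') {P : Matrix ι ι R} (h : IsMor c c' R P) :
    IsMor c c' R' (P.map φ) := by
  rw [isMor_iff]
  intro i j
  have h1 := h (Pi.single i 1) (Pi.single j 1)
  have h2 := congrArg (fun (f : ι → R) => (fun k => φ (f k))) h1
  beta_reduce at h2
  rw [map_mulVec' φ, mulc_map, mulc_map, map_mulVec' φ, map_mulVec' φ, map_single', map_single'] at h2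
  exact h2

lemma IsMor.of_map (φ : R →+* R') (hφ : Function.Injective φ) {P : Matrix ι ι R}
    (h : IsMor c c' R' (P.map φ)) : IsMor c c' R P := by
  intro x y
  have h1 := h (fun i => φ (x i)) (fun i => φ (y i))
  rw [← mulc_map, ← map_mulVec', ← map_mulVec', ← map_mulVec', ← mulc_map] at h1
  funext k
  exact hφ (congrFun h1 k)

lemma IsDer.map (φ : R →+* R') {P : Matrix ι ι R} (h : IsDer c R P) :
    IsDer c R' (P.map φ) := by
  rw [isDer_iff]
  intro i j
  have h1 := h (Pi.single i 1) (Pi.single j 1)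
  have h2 := congrArg (fun (f : ι → R) => (fun k => φ (f k))) h1
  simp only [Pi.add_apply, map_add] at h2
  rw [map_mulVec' φ, mulc_map, map_single', map_single'] at h2
  rw [h2]
  funext k
  have h3 := congrFun (mulc_map c φ (P *ᵥ Pi.single i 1) (Pi.single j 1)) k
  have h4 := congrFun (mulc_map c φ (Pi.single i 1) (P *ᵥ Pi.single j 1)) k
  simp only [Pi.add_apply]
  beta_reduce at h3 h4
  rw [h3, h4, map_mulVec', map_mulVec', map_single', map_single']

lemma IsDer.of_map (φ : R →+* R') (hφ : Function.Injective φ) {P : Matrix ι ι R}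
    (h : IsDer c R' (P.map φ)) : IsDer c R P := by
  intro x y
  have h1 := h (fun i => φ (x i)) (fun i => φ (y i))
  rw [← mulc_map, ← map_mulVec', ← map_mulVec', ← map_mulVec', ← mulc_map, ← mulc_map] at h1
  funext k
  apply hφ
  have h2 := congrFun h1 k
  simp only [Pi.add_apply, map_add] at h2 ⊢
  exact h2

/-- transport of derivations -/
lemma IsDer.conj {P Q D : Matrix ι ι R} (hPQ : P * Q = 1) (hQP : Q * P = 1)
    (hP : IsMor c' c R P) (hQ : IsMor c c' R Q) (hD : IsDer c R D) : IsDer c' R (Q * D * P) := by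
  intro x y
  have e1 : ∀ z, P *ᵥ (Q *ᵥ z) = z := fun z => by
    rw [Matrix.mulVec_mulVec, hPQ, Matrix.one_mulVec]
  have e2 : ∀ z, Q *ᵥ (P *ᵥ z) = z := fun z => by
    rw [Matrix.mulVec_mulVec, hQP, Matrix.one_mulVec]
  have e3 : ∀ z, (Q * D * P) *ᵥ z = Q *ᵥ (D *ᵥ (P *ᵥ z)) := fun z => by
    rw [Matrix.mulVec_mulVec, Matrix.mulVec_mulVec]
  rw [e3, e3, e3, hP, hD, Matrix.mulVec_add, hQ, hQ, e2, e2]

lemma charpoly_conj {P Q D : Matrix ι ι R} (hPQ : P * Q = 1) :
    (Q * D * P).charpoly = D.charpoly := by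
  rw [Matrix.mul_assoc, Matrix.charpoly_mul_comm, Matrix.mul_assoc, hPQ, Matrix.mul_one]

lemma IsDer.add {D D' : Matrix ι ι R} (h : IsDer c R D) (h' : IsDer c R D') :
    IsDer c R (D + D') := by
  intro x y
  rw [Matrix.add_mulVec, Matrix.add_mulVec, Matrix.add_mulVec, h, h', mulc_add_left,
    mulc_add_right]
  abel

lemma IsDer.smul (a : R) {D : Matrix ι ι R} (h : IsDer c R D) : IsDer c R (a • D) := by
  intro x y
  rw [Matrix.smul_mulVec, Matrix.smul_mulVec, Matrix.smul_mulVec, h, mulc_smul_left,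
    mulc_smul_right, smul_add]

end

end Pool.Agent.N889.AO
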