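import Pool.Agent.N889.AO.Base

/-! # The core: an Anosov automorphism for every form -/

set_option autoImplicit false
open Polynomial Matrix

namespace Pool.Agent.N889.AO

lemma RealDistinct.smul {ι : Type} [Fintype ι] [DecidableEq ι] {D : Matrix ι ι ℝ}
    (h : RealDistinct D) {a : ℝ} (ha : a ≠ 0) : RealDistinct (a • D) := by
  obtain ⟨r, hr, hD⟩ := h
  refine ⟨fun i => a * r i, fun i j hij => hr (mul_left_cancel₀ ha hij), ?_⟩
  -- evaluate at all points
  refine Polynomial.funext fun x => ?_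
  have h1 : x = a * (a⁻¹ * x) := by field_simp
  have h2 : (a • D).charpoly.eval x = a ^ (Fintype.card ι) * D.charpoly.eval (a⁻¹ * x) := by
    rw [Matrix.eval_charpoly, Matrix.eval_charpoly, ← Matrix.det_smul]
    congr 1
    rw [smul_sub]
    congr 1
    ext i j
    by_cases hij : i = j
    · subst hij
      simp only [Matrix.scalar_apply, Matrix.diagonal_apply_eq, Matrix.smul_apply, smul_eq_mul]
      exact h1
    · simp [Matrix.scalar_apply, Matrix.diagonal_apply_ne _ hij]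
  rw [h2, hD, Polynomial.eval_prod, Polynomial.eval_prod]
  rw [← Finset.card_univ, ← Finset.prod_const, ← Finset.prod_mul_distrib]
  refine Finset.prod_congr rfl fun i _ => ?_
  simp only [eval_sub, eval_X, eval_C]
  field_simp

lemma realDistinct_diagonal {ι : Type} [Fintype ι] [DecidableEq ι] (w : ι → ℝ)
    (hw : Function.Injective w) : RealDistinct (Matrix.diagonal w) :=
  ⟨w, hw, Matrix.charpoly_diagonal w⟩

theorem core (hUnits : StmUnits) (hRed : StmRed) (hLift : StmLift) (hOpen : StmOpen)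
    (hApx : StmApx) (hModp : StmModp) (hDiag : StmDiag)
    (n : ℕ) (G : SimpleGraph (Fin n)) [Fintype G.edgeSet] (hG : Good G)
    (c' : (Fin n ⊕ G.edgeSet) → (Fin n ⊕ G.edgeSet) → (Fin n ⊕ G.edgeSet) → ℤ)
    (P Q : Matrix (Fin n ⊕ G.edgeSet) (Fin n ⊕ G.edgeSet) ℝ) (hPQ : P * Q = 1) (hQP : Q * P = 1)
    (hP : IsMor c' (cG G) ℝ P) (hQ : IsMor (cG G) c' ℝ Q) :
    ∃ F : Matrix (Fin n ⊕ G.edgeSet) (Fin n ⊕ G.edgeSet) ℚ, IsMor c' c' ℚ F ∧ AnosovMat F := by
  classical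
  obtain ⟨B, hB⟩ := hLift _ c'
  -- reduction modulo `p`
  let S : Finset ℂ := (Finset.univ.image fun ij : (Fin n ⊕ G.edgeSet) × (Fin n ⊕ G.edgeSet) =>
      ((P ij.1 ij.2 : ℝ) : ℂ)) ∪ (Finset.univ.image fun ij : (Fin n ⊕ G.edgeSet) ×
      (Fin n ⊕ G.edgeSet) => ((Q ij.1 ij.2 : ℝ) : ℂ))
  obtain ⟨p, hp, hpB, hL, ⟨φ⟩⟩ := hRed S n.factorial (max (2 * n) B) n.factorial_pos
  have hPm : ∀ i j, ((P i j : ℝ) : ℂ) ∈ Algebra.adjoin ℤ (S : Set ℂ) := fun i j =>
    Algebra.subset_adjoin (by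
      simp only [S, Finset.coe_union, Finset.coe_image, Finset.coe_univ, Set.image_univ]
      exact Or.inl ⟨(i, j), rfl⟩)
  have hQm : ∀ i j, ((Q i j : ℝ) : ℂ) ∈ Algebra.adjoin ℤ (S : Set ℂ) := fun i j =>
    Algebra.subset_adjoin (by
      simp only [S, Finset.coe_union, Finset.coe_image, Finset.coe_univ, Set.image_univ]
      exact Or.inr ⟨(i, j), rfl⟩)
  let A : Type := Algebra.adjoin ℤ (S : Set ℂ)
  let ι := (Algebra.adjoin ℤ (S : Set ℂ)).val.toRingHom
  have hι : Function.Injective ι := Subtype.val_injective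
  let PA : Matrix (Fin n ⊕ G.edgeSet) (Fin n ⊕ G.edgeSet) (Algebra.adjoin ℤ (S : Set ℂ)) :=
    Matrix.of fun i j => ⟨((P i j : ℝ) : ℂ), hPm i j⟩
  let QA : Matrix (Fin n ⊕ G.edgeSet) (Fin n ⊕ G.edgeSet) (Algebra.adjoin ℤ (S : Set ℂ)) :=
    Matrix.of fun i j => ⟨((Q i j : ℝ) : ℂ), hQm i j⟩
  have hPA : PA.map ι = P.map Complex.ofRealHom := rfl
  have hQA : QA.map ι = Q.map Complex.ofRealHom := rfl
  have hmap1 : ∀ {R R' : Type} [CommRing R] [CommRing R'] (f : R →+* R'),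
      ((1 : Matrix (Fin n ⊕ G.edgeSet) (Fin n ⊕ G.edgeSet) R).map f) = 1 := by
    intro R R' _ _ f
    exact Matrix.map_one f (map_zero f) (map_one f)
  have hPQA : PA * QA = 1 := by
    have h1 : (PA * QA).map ι = (1 : Matrix _ _ (Algebra.adjoin ℤ (S : Set ℂ))).map ι := by
      rw [Matrix.map_mul, hPA, hQA, ← Matrix.map_mul, hPQ, hmap1, hmap1]
    exact Matrix.map_injective hι h1
  have hQPA : QA * PA = 1 := by
    have h1 : (QA * PA).map ι = (1 : Matrix _ _ (Algebra.adjoin ℤ (S : Set ℂ))).map ι := by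
      rw [Matrix.map_mul, hPA, hQA, ← Matrix.map_mul, hQP, hmap1, hmap1]
    exact Matrix.map_injective hι h1
  have hPA' : IsMor c' (cG G) (Algebra.adjoin ℤ (S : Set ℂ)) PA :=
    IsMor.of_map ι hι (by rw [hPA]; exact hP.map _)
  have hQA' : IsMor (cG G) c' (Algebra.adjoin ℤ (S : Set ℂ)) QA :=
    IsMor.of_map ι hι (by rw [hQA]; exact hQ.map _)
  -- the derivation modulo `p`
  obtain ⟨Dp, hDp, hDpr⟩ := hModp n G hG p (lt_of_le_of_lt (le_max_left _ _) hpB) hL
  let Pp := PA.map φ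
  let Qp := QA.map φ
  have hPQp : Pp * Qp = 1 := by
    show PA.map φ * QA.map φ = 1
    rw [← Matrix.map_mul, hPQA, hmap1]
  have hQPp : Qp * Pp = 1 := by
    show QA.map φ * PA.map φ = 1
    rw [← Matrix.map_mul, hQPA, hmap1]
  have hDb : IsDer c' (ZMod p) (Qp * Dp * Pp) :=
    IsDer.conj hPQp hQPp (hPA'.map φ) (hQA'.map φ) hDp
  obtain ⟨D0, hD0, hD0p⟩ := hB p (lt_of_le_of_lt (le_max_right _ _) hpB) _ hDb
  -- a real derivation with distinct eigenvalues
  obtain ⟨w, hw, hwD⟩ := hDiag n G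
  have hDr : IsDer c' ℝ (Q * Matrix.diagonal (fun i => (w i : ℝ)) * P) :=
    IsDer.conj hPQ hQP hP hQ (hwD ℝ)
  have hDd : RealDistinct (Q * Matrix.diagonal (fun i => (w i : ℝ)) * P) := by
    obtain ⟨r, hr, h1⟩ := realDistinct_diagonal (fun i => (w i : ℝ))
      (fun i j hij => hw (Int.cast_injective hij))
    exact ⟨r, hr, by rw [charpoly_conj hPQ, h1]⟩
  obtain ⟨ε, hε, hεD⟩ := hOpen _ _ hDd
  obtain ⟨D1, hD1, hD1a⟩ := hApx _ c' _ hDr ε hε
  have hD1d : RealDistinct (D1.map (algebraMap ℚ ℝ)) := hεD _ hD1a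
  -- clear denominators
  obtain ⟨N, hN, D2, hD2⟩ : ∃ (N : ℕ) (_ : 0 < N)
      (D2 : Matrix (Fin n ⊕ G.edgeSet) (Fin n ⊕ G.edgeSet) ℤ),
      D2.map (Int.castRingHom ℚ) = (N : ℚ) • D1 := by
    let N : ℕ := ∏ ij : (Fin n ⊕ G.edgeSet) × (Fin n ⊕ G.edgeSet), (D1 ij.1 ij.2).den
    have hN : 0 < N := Finset.prod_pos fun ij _ => (D1 ij.1 ij.2).den_pos
    have hdiv : ∀ i j, ∃ k : ℤ, (k : ℚ) = (N : ℚ) * D1 i j := by
      intro i j
      obtain ⟨m, hm⟩ : (D1 i j).den ∣ N :=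
        Finset.dvd_prod_of_mem (fun ij : (Fin n ⊕ G.edgeSet) × (Fin n ⊕ G.edgeSet) =>
          (D1 ij.1 ij.2).den) (Finset.mem_univ (i, j))
      refine ⟨m * (D1 i j).num, ?_⟩
      rw [hm]
      push_cast
      have h3 := Rat.mul_den_eq_num (D1 i j)
      rw [← h3]
      ring
    choose k hk using hdiv
    exact ⟨N, hN, Matrix.of k, by ext i j; simp [hk]⟩
  have hD2d : IsDer c' ℚ (D2.map (Int.castRingHom ℚ)) := by
    rw [hD2]; exact hD1.smul _
  have hD2i : IsDer c' ℤ D2 := IsDer.of_map (Int.castRingHom ℚ) Int.cast_injective hD2d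
  have hD2r : RealDistinct (D2.map (Int.castRingHom ℝ)) := by
    have h1 : D2.map (Int.castRingHom ℝ) = (N : ℝ) • D1.map (algebraMap ℚ ℝ) := by
      have h2 : D2.map (Int.castRingHom ℝ) =
          (D2.map (Int.castRingHom ℚ)).map (algebraMap ℚ ℝ) := by
        ext i j; simp
      rw [h2, hD2]
      ext i j
      simp
    rw [h1]
    exact hD1d.smul (by exact_mod_cast hN.ne')
  obtain ⟨δ, hδ, hδD⟩ := hOpen _ _ hD2r
  -- the combination
  obtain ⟨C, hC⟩ : ∃ C : ℝ, ∀ i j, |(D0 i j : ℝ)| ≤ C := by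
    refine ⟨∑ ij : (Fin n ⊕ G.edgeSet) × (Fin n ⊕ G.edgeSet), |(D0 ij.1 ij.2 : ℝ)|, ?_⟩
    intro i j
    exact Finset.single_le_sum (f := fun ij : (Fin n ⊕ G.edgeSet) × (Fin n ⊕ G.edgeSet) =>
      |(D0 ij.1 ij.2 : ℝ)|) (fun _ _ => abs_nonneg _) (Finset.mem_univ (i, j))
  obtain ⟨m, hm⟩ := exists_nat_gt (C / δ)
  let M : ℕ := m + 1
  have hM : (0 : ℝ) < (p * M : ℕ) := by
    have : 0 < p * M := Nat.mul_pos hp.out.pos (Nat.succ_pos m)
    exact_mod_cast this
  let D : Matrix (Fin n ⊕ G.edgeSet) (Fin n ⊕ G.edgeSet) ℤ := D0 + ((p * M : ℕ) : ℤ) • D2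
  have hDder : IsDer c' ℤ D := hD0.add (hD2i.smul _)
  have hDreal : RealDistinct (D.map (Int.castRingHom ℝ)) := by
    have h1 : RealDistinct (((p * M : ℕ) : ℝ)⁻¹ • D.map (Int.castRingHom ℝ)) := by
      apply hδD
      intro i j
      have h2 : (((p * M : ℕ) : ℝ)⁻¹ • D.map (Int.castRingHom ℝ)) i j -
          (D2.map (Int.castRingHom ℝ)) i j = (D0 i j : ℝ) / (p * M : ℕ) := by
        simp only [Matrix.smul_apply, Matrix.map_apply, D, Matrix.add_apply, smul_eq_mul,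
          map_add, map_mul, eq_intCast]
        have h5 : (((p * M : ℕ) : ℤ) : ℝ) = ((p * M : ℕ) : ℝ) := by norm_cast
        rw [h5]
        have h6 : ((p * M : ℕ) : ℝ) ≠ 0 := hM.ne'
        generalize ((p * M : ℕ) : ℝ) = t at h6 ⊢
        field_simp
        ring
      rw [h2, abs_div, abs_of_pos hM, div_lt_iff₀ hM]
      have h3 : C < δ * m := by
        have := (div_lt_iff₀ hδ).1 hm
        linarith
      have h4 : (m : ℝ) ≤ (p * M : ℕ) := by
        have : m ≤ p * M := le_trans (Nat.le_succ m) (Nat.le_mul_of_pos_left M hp.out.pos)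
        exact_mod_cast this
      calc |(D0 i j : ℝ)| ≤ C := hC i j
        _ < δ * m := h3
        _ ≤ δ * (p * M : ℕ) := mul_le_mul_of_nonneg_left h4 hδ.le
    have h2 := h1.smul hM.ne'
    rwa [smul_smul, mul_inv_cancel₀ hM.ne', one_smul] at h2
  have hDmod : D.map (Int.castRingHom (ZMod p)) = Qp * Dp * Pp := by
    rw [← hD0p]
    ext i j
    simp only [D, Matrix.map_apply, Matrix.add_apply, Matrix.smul_apply, smul_eq_mul, map_add,
      map_mul, eq_intCast]
    have h7 : (((p * M : ℕ) : ℤ) : ZMod p) = 0 := by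
      rw [Int.cast_natCast, Nat.cast_mul, ZMod.natCast_self, zero_mul]
    rw [h7, zero_mul, add_zero]
  -- no rational eigenvalue
  have hnoroot : ∀ q : ℚ, ¬ (D.map (Int.castRingHom ℚ)).charpoly.IsRoot q := by
    intro q hq
    have h1 : (D.map (Int.castRingHom ℚ)).charpoly = D.charpoly.map (Int.castRingHom ℚ) :=
      Matrix.charpoly_map D (Int.castRingHom ℚ)
    have h2 : aeval q D.charpoly = 0 := by
      rw [h1] at hq
      rw [aeval_def, ← eval_map]
      exact hq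
    have h3 : IsIntegral ℤ q := ⟨D.charpoly, Matrix.charpoly_monic D, h2⟩
    obtain ⟨z, hz⟩ := IsIntegrallyClosed.isIntegral_iff.1 h3
    have h4 : D.charpoly.eval z = 0 := by
      rw [← hz] at h2
      have h5 : (algebraMap ℤ ℚ) (D.charpoly.eval z) = 0 := by
        rw [← h2, aeval_algebraMap_apply]
        rfl
      exact (FaithfulSMul.algebraMap_injective ℤ ℚ) (by rw [h5, map_zero])
    have h5 : (D.map (Int.castRingHom (ZMod p))).charpoly.IsRoot (z : ZMod p) := by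
      rw [Matrix.charpoly_map, IsRoot.def, eval_map]
      have h6 : eval₂ (Int.castRingHom (ZMod p)) (Int.castRingHom (ZMod p) z) D.charpoly =
          Int.castRingHom (ZMod p) (D.charpoly.eval z) := by
        rw [Polynomial.eval₂_at_apply]
      rw [h4, map_zero] at h6
      exact h6
    rw [hDmod, charpoly_conj hPQp] at h5
    exact hDpr _ h5
  refine hUnits _ c' (D.map (Int.castRingHom ℚ)) (hDder.map _) ?_ hnoroot
  have h9 : (D.map (Int.castRingHom ℚ)).map (algebraMap ℚ ℝ) = D.map (Int.castRingHom ℝ) := by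
    ext i j; simp
  rw [h9]
  exact hDreal

end Pool.Agent.N889.AO
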