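import Mathlib

/-!
# Project AO: Anosov automorphisms of rational forms of graph Lie algebras (S04415): definitions

Everything is expressed with integral structure constants `c : ι → ι → ι → ℤ`.
-/

set_option autoImplicit false
open Polynomial Matrix

namespace Pool.Agent.N889.AO

section general
variable {ι : Type} [Fintype ι]

/-- the product with structure constants `c` on `R^ι` -/
def mulc (c : ι → ι → ι → ℤ) (R : Type) [CommRing R] (x y : ι → R) : ι → R :=
  fun k => ∑ i, ∑ j, (c i j k : R) * x i * y j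

/-- `D` is a derivation of the algebra `(R^ι, c)` -/
def IsDer (c : ι → ι → ι → ℤ) (R : Type) [CommRing R] (D : Matrix ι ι R) : Prop :=
  ∀ x y : ι → R, D *ᵥ mulc c R x y = mulc c R (D *ᵥ x) y + mulc c R x (D *ᵥ y)

/-- `P` is a homomorphism from `(R^ι, c)` to `(R^ι, c')` -/
def IsMor (c c' : ι → ι → ι → ℤ) (R : Type) [CommRing R] (P : Matrix ι ι R) : Prop :=
  ∀ x y : ι → R, P *ᵥ mulc c R x y = mulc c' R (P *ᵥ x) (P *ᵥ y)

/-- integral characteristic polynomial, constant term `±1`, no complex root of modulus one -/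
def AnosovMat [DecidableEq ι] (F : Matrix ι ι ℚ) : Prop :=
  ∃ p : ℤ[X], p.map (Int.castRingHom ℚ) = F.charpoly ∧ (p.coeff 0 = 1 ∨ p.coeff 0 = -1) ∧
    ∀ z : ℂ, (p.map (Int.castRingHom ℂ)).IsRoot z → ‖z‖ ≠ 1

/-- the characteristic polynomial has `card ι` distinct real roots -/
def RealDistinct [DecidableEq ι] (D : Matrix ι ι ℝ) : Prop :=
  ∃ r : ι → ℝ, Function.Injective r ∧ D.charpoly = ∏ i, (X - C (r i))

/-- subspaces of `ℚ^ι` invariant under all derivations -/
def CharSub (c : ι → ι → ι → ℤ) (U : Submodule ℚ (ι → ℚ)) : Prop :=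
  ∀ D : Matrix ι ι ℚ, IsDer c ℚ D → ∀ x ∈ U, D *ᵥ x ∈ U

lemma mulc_add_left (c : ι → ι → ι → ℤ) (R : Type) [CommRing R] (x x' y : ι → R) :
    mulc c R (x + x') y = mulc c R x y + mulc c R x' y := by
  funext k
  simp only [mulc, Pi.add_apply, ← Finset.sum_add_distrib]
  refine Finset.sum_congr rfl fun i _ => Finset.sum_congr rfl fun j _ => by ring

lemma mulc_add_right (c : ι → ι → ι → ℤ) (R : Type) [CommRing R] (x y y' : ι → R) :
    mulc c R x (y + y') = mulc c R x y + mulc c R x y' := by
  funext k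
  simp only [mulc, Pi.add_apply, ← Finset.sum_add_distrib]
  refine Finset.sum_congr rfl fun i _ => Finset.sum_congr rfl fun j _ => by ring

lemma mulc_smul_left (c : ι → ι → ι → ℤ) (R : Type) [CommRing R] (a : R) (x y : ι → R) :
    mulc c R (a • x) y = a • mulc c R x y := by
  funext k
  simp only [mulc, Pi.smul_apply, smul_eq_mul, Finset.mul_sum]
  refine Finset.sum_congr rfl fun i _ => Finset.sum_congr rfl fun j _ => by ring

lemma mulc_smul_right (c : ι → ι → ι → ℤ) (R : Type) [CommRing R] (a : R) (x y : ι → R) :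
    mulc c R x (a • y) = a • mulc c R x y := by
  funext k
  simp only [mulc, Pi.smul_apply, smul_eq_mul, Finset.mul_sum]
  refine Finset.sum_congr rfl fun i _ => Finset.sum_congr rfl fun j _ => by ring

lemma mulc_zero_left (c : ι → ι → ι → ℤ) (R : Type) [CommRing R] (y : ι → R) :
    mulc c R 0 y = 0 := by
  have := mulc_smul_left c R 0 0 y
  simpa using this

lemma mulc_zero_right (c : ι → ι → ι → ℤ) (R : Type) [CommRing R] (x : ι → R) :
    mulc c R x 0 = 0 := by
  have := mulc_smul_right c R 0 x 0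
  simpa using this

/-- the product as a bilinear map -/
def mulB (c : ι → ι → ι → ℤ) (R : Type) [CommRing R] : (ι → R) →ₗ[R] (ι → R) →ₗ[R] (ι → R) :=
  LinearMap.mk₂ R (mulc c R) (mulc_add_left c R) (mulc_smul_left c R) (mulc_add_right c R)
    (mulc_smul_right c R)

@[simp] lemma mulB_apply (c : ι → ι → ι → ℤ) (R : Type) [CommRing R] (x y : ι → R) :
    mulB c R x y = mulc c R x y := rfl

lemma mulc_map (c : ι → ι → ι → ℤ) {R R' : Type} [CommRing R] [CommRing R'] (φ : R →+* R')
    (x y : ι → R) : (fun k => φ (mulc c R x y k)) = mulc c R' (fun i => φ (x i)) (fun i => φ (y i)) := by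
  funext k
  simp [mulc, map_sum]

lemma mulc_single [DecidableEq ι] (c : ι → ι → ι → ℤ) (R : Type) [CommRing R] (i j k : ι) :
    mulc c R (Pi.single i 1) (Pi.single j 1) k = (c i j k : R) := by
  simp [mulc, Pi.single_apply]

/-- it is enough to check the derivation identity on the standard basis -/
lemma isDer_iff [DecidableEq ι] (c : ι → ι → ι → ℤ) (R : Type) [CommRing R] (D : Matrix ι ι R) :
    IsDer c R D ↔ ∀ i j : ι, D *ᵥ mulc c R (Pi.single i 1) (Pi.single j 1) =
      mulc c R (D *ᵥ Pi.single i 1) (Pi.single j 1) + mulc c R (Pi.single i 1) (D *ᵥ Pi.single j 1) := by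
  constructor
  · intro h i j
    exact h _ _
  · intro h x y
    have h1 : (mulB c R).compr₂ D.mulVecLin =
        (mulB c R).compl₂ D.mulVecLin + (mulB c R).comp D.mulVecLin := by
      refine (Pi.basisFun R ι).ext fun i => (Pi.basisFun R ι).ext fun j => ?_
      simp only [Pi.basisFun_apply, LinearMap.compr₂_apply, LinearMap.add_apply,
        LinearMap.compl₂_apply, LinearMap.comp_apply, Matrix.mulVecLin_apply, mulB_apply]
      rw [h i j, add_comm]
    have h2 := LinearMap.congr_fun (LinearMap.congr_fun h1 x) y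
    simp only [LinearMap.compr₂_apply, LinearMap.add_apply,
        LinearMap.compl₂_apply, LinearMap.comp_apply, Matrix.mulVecLin_apply, mulB_apply] at h2
    rw [h2, add_comm]

/-- it is enough to check the homomorphism identity on the standard basis -/
lemma isMor_iff [DecidableEq ι] (c c' : ι → ι → ι → ℤ) (R : Type) [CommRing R] (P : Matrix ι ι R) :
    IsMor c c' R P ↔ ∀ i j : ι, P *ᵥ mulc c R (Pi.single i 1) (Pi.single j 1) =
      mulc c' R (P *ᵥ Pi.single i 1) (P *ᵥ Pi.single j 1) := by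
  constructor
  · intro h i j
    exact h _ _
  · intro h x y
    have h1 : (mulB c R).compr₂ P.mulVecLin =
        (mulB c' R).compl₁₂ P.mulVecLin P.mulVecLin := by
      refine (Pi.basisFun R ι).ext fun i => (Pi.basisFun R ι).ext fun j => ?_
      simp only [Pi.basisFun_apply, LinearMap.compr₂_apply,
        LinearMap.compl₁₂_apply, Matrix.mulVecLin_apply, mulB_apply]
      rw [h i j]
    have h2 := LinearMap.congr_fun (LinearMap.congr_fun h1 x) y
    simpa only [LinearMap.compr₂_apply, LinearMap.compl₁₂_apply, Matrix.mulVecLin_apply,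
      mulB_apply] using h2

end general

section graph
variable {n : ℕ}

/-- structure constants of the two-step nilpotent Lie algebra of a graph -/
def cG (G : SimpleGraph (Fin n)) :
    (Fin n ⊕ G.edgeSet) → (Fin n ⊕ G.edgeSet) → (Fin n ⊕ G.edgeSet) → ℤ
  | Sum.inl i, Sum.inl j, Sum.inr e =>
      if e.1 = s(i, j) then (if i < j then 1 else if j < i then -1 else 0) else 0
  | _, _, _ => 0

/-- coherence: the same neighbours outside `{a, b}` -/
def Coh (G : SimpleGraph (Fin n)) (a b : Fin n) : Prop :=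
  ∀ x, x ≠ a → x ≠ b → (G.Adj a x ↔ G.Adj b x)

/-- no coherent component has one element, and none consists of two adjacent vertices -/
def Good (G : SimpleGraph (Fin n)) : Prop :=
  (∀ a, ∃ b, b ≠ a ∧ Coh G a b) ∧
  (∀ a b, G.Adj a b → Coh G a b → ∃ d, d ≠ a ∧ d ≠ b ∧ Coh G a d)

lemma Coh.refl (G : SimpleGraph (Fin n)) (a : Fin n) : Coh G a a := fun _ _ _ => Iff.rfl

lemma Coh.symm {G : SimpleGraph (Fin n)} {a b : Fin n} (h : Coh G a b) : Coh G b a :=
  fun x h1 h2 => (h x h2 h1).symm

lemma Coh.trans {G : SimpleGraph (Fin n)} {a b d : Fin n} (h : Coh G a b) (h' : Coh G b d) :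
    Coh G a d := by
  intro x hxa hxd
  by_cases hxb : x = b
  · subst hxb
    by_cases had : a = d
    · subst had; rfl
    -- x = b: G.Adj a b ↔ G.Adj d b
    have h1 := h d (Ne.symm had) hxd.symm
    have h2 := h' a hxa.symm had
    constructor
    · intro h3
      exact (h1.1 ((h2.1 h3.symm).symm)).symm
    · intro h3
      exact (h2.2 ((h1.2 h3.symm).symm)).symm
  · exact (h x hxa hxb).trans (h' x hxb hxd)

/-- the coherence relation -/
def cohSetoid (G : SimpleGraph (Fin n)) : Setoid (Fin n) :=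
  ⟨Coh G, ⟨Coh.refl G, Coh.symm, Coh.trans⟩⟩

/-- a coherent component containing an edge is a clique -/
lemma Coh.adj_of_adj {G : SimpleGraph (Fin n)} {a b d : Fin n} (hab : G.Adj a b)
    (h : Coh G a b) (hd : Coh G b d) (hbd : b ≠ d) : G.Adj b d := by
  by_cases had : a = d
  · subst had; exact hab.symm
  have h1 : Coh G a d := h.trans hd
  -- b ≠ a, b ≠ d : G.Adj a b ↔ G.Adj d b
  have := (h1 b hab.ne.symm hbd).1 hab
  exact this.symm

variable (G : SimpleGraph (Fin n)) [Fintype G.edgeSet] (R : Type) [CommRing R]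

lemma mulc_cG_inl (x y : Fin n ⊕ G.edgeSet → R) (k : Fin n) :
    mulc (cG G) R x y (Sum.inl k) = 0 := by
  simp only [mulc]
  refine Finset.sum_eq_zero fun i _ => Finset.sum_eq_zero fun j _ => ?_
  have : cG G i j (Sum.inl k) = 0 := by
    rcases i with i | i <;> rcases j with j | j <;> rfl
  simp [this]

lemma mulc_cG_inr (x y : Fin n ⊕ G.edgeSet → R) (i j : Fin n) (h : G.Adj i j) (hij : i < j) :
    mulc (cG G) R x y (Sum.inr ⟨s(i, j), G.mem_edgeSet.mpr h⟩) =
      x (Sum.inl i) * y (Sum.inl j) - x (Sum.inl j) * y (Sum.inl i) := by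
  simp only [mulc, Fintype.sum_sum_type]
  have h1 : ∀ (a : G.edgeSet) (b : Fin n ⊕ G.edgeSet),
      cG G (Sum.inr a) b (Sum.inr ⟨s(i, j), G.mem_edgeSet.mpr h⟩) = 0 := fun a b => rfl
  have h2 : ∀ (a : Fin n) (b : G.edgeSet),
      cG G (Sum.inl a) (Sum.inr b) (Sum.inr ⟨s(i, j), G.mem_edgeSet.mpr h⟩) = 0 := fun a b => rfl
  simp only [h1, h2, Int.cast_zero, zero_mul, Finset.sum_const_zero, add_zero]
  have h3 : ∀ a b : Fin n, cG G (Sum.inl a) (Sum.inl b) (Sum.inr ⟨s(i, j), G.mem_edgeSet.mpr h⟩) =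
      (if a = i ∧ b = j then 1 else 0) - (if a = j ∧ b = i then 1 else 0) := by
    intro a b
    show (if s(i, j) = s(a, b) then (if a < b then 1 else if b < a then -1 else 0) else 0 : ℤ) = _
    by_cases hab : a = i ∧ b = j
    · obtain ⟨rfl, rfl⟩ := hab
      have : ¬ (a = b ∧ b = a) := fun hh => absurd hij (by rw [hh.1]; exact lt_irrefl _)
      simp [hij, this]
    · by_cases hab' : a = j ∧ b = i
      · obtain ⟨rfl, rfl⟩ := hab'
        simp [Sym2.eq_swap, hij, not_lt_of_gt hij, hab]
      · have : ¬ (s(i, j) = s(a, b)) := by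
          rw [Sym2.eq_iff]
          rintro (⟨h4, h5⟩ | ⟨h4, h5⟩)
          · exact hab ⟨h4.symm, h5.symm⟩
          · exact hab' ⟨h5.symm, h4.symm⟩
        simp [this, hab, hab']
  simp only [h3]
  push_cast
  simp only [sub_mul, Finset.sum_sub_distrib, ite_and]
  simp [Finset.sum_ite_eq', mul_comm]

omit [Fintype G.edgeSet] in
/-- every edge is `s(i, j)` with `i < j` -/
lemma edge_cases (e : G.edgeSet) : ∃ (i j : Fin n) (h : G.Adj i j), i < j ∧
    e = ⟨s(i, j), G.mem_edgeSet.mpr h⟩ := by
  obtain ⟨e, he⟩ := e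
  induction e using Sym2.ind with
  | _ a b =>
    have hab : G.Adj a b := he
    rcases lt_or_gt_of_ne hab.ne with h1 | h1
    · exact ⟨a, b, hab, h1, rfl⟩
    · exact ⟨b, a, hab.symm, h1, Subtype.ext Sym2.eq_swap⟩

end graph

end Pool.Agent.N889.AO
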