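import Pool.Agent.N889.AO.Def

/-!
# Project AO (S04415): exact statements of the pieces
-/

set_option autoImplicit false
open Polynomial Matrix
open scoped TensorProduct

namespace Pool.Agent.N889.AO

/-! ## Units -/

/-- UNI: a unit whose conjugates satisfy only the norm relation. -/
def StmUni : Prop := ∀ (K : Type) [Field K] [NumberField K] [IsGalois ℚ K] (φ : K →+* ℝ),
  ∃ u : K, IsIntegral ℤ u ∧ IsIntegral ℤ u⁻¹ ∧ u ≠ 0 ∧
    ∀ m : (K ≃ₐ[ℚ] K) → ℤ, (∀ τ : K ≃ₐ[ℚ] K, |φ (τ (∏ σ : K ≃ₐ[ℚ] K, (σ u) ^ (m σ)))| = 1) →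
      ∀ σ τ : K ≃ₐ[ℚ] K, m σ = m τ

/-- CHR: the Galois equivariant character on a Galois stable finite set of irrational numbers. -/
def StmChr : Prop := ∀ (K : Type) [Field K] [NumberField K] [IsGalois ℚ K] (_φ : K →+* ℝ)
  (E : Finset K), (∀ e ∈ E, ∀ σ : K ≃ₐ[ℚ] K, σ e ∈ E) →
  (∀ e ∈ E, ∀ q : ℚ, e ≠ algebraMap ℚ K q) →
  ∃ t : K → K,
    (∀ e ∈ E, IsIntegral ℤ (t e) ∧ IsIntegral ℤ (t e)⁻¹ ∧ t e ≠ 0 ∧ ∀ τ : K →+* ℂ, ‖τ (t e)‖ ≠ 1) ∧
    (∀ e ∈ E, ∀ f ∈ E, e + f ∈ E → t (e + f) = t e * t f) ∧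
    (∀ e ∈ E, ∀ σ : K ≃ₐ[ℚ] K, σ (t e) = t (σ e))

/-- INT: equivariant interpolation has rational coefficients. -/
def StmInt : Prop := ∀ (ι : Type) [Fintype ι] [DecidableEq ι] (K : Type) [Field K] [NumberField K]
  [IsGalois ℚ K] (r : ι → K) (t : K → K), Function.Injective r →
  (∀ i (σ : K ≃ₐ[ℚ] K), ∃ j, σ (r i) = r j) →
  (∀ i (σ : K ≃ₐ[ℚ] K), σ (t (r i)) = t (σ (r i))) →
  (∃ q : ℚ[X], ∀ i, aeval (r i) q = t (r i)) ∧
  ((∀ i, IsIntegral ℤ (t (r i)) ∧ IsIntegral ℤ (t (r i))⁻¹ ∧ t (r i) ≠ 0 ∧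
    ∀ τ : K →+* ℂ, ‖τ (t (r i))‖ ≠ 1) →
    ∃ p : ℤ[X], p.map (algebraMap ℤ K) = ∏ i, (X - C (t (r i))) ∧
      (p.coeff 0 = 1 ∨ p.coeff 0 = -1) ∧
      ∀ z : ℂ, (p.map (Int.castRingHom ℂ)).IsRoot z → ‖z‖ ≠ 1)

/-- MORQ: a polynomial in a derivation is a homomorphism if it is multiplicative on eigenvalues. -/
def StmMorq : Prop := ∀ (ι : Type) [Fintype ι] [DecidableEq ι] (c : ι → ι → ι → ℤ)
  (D : Matrix ι ι ℚ) (K : Type) [Field K] [Algebra ℚ K] (r : ι → K) (q : ℚ[X]),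
  IsDer c ℚ D → Function.Injective r → D.charpoly.map (algebraMap ℚ K) = ∏ i, (X - C (r i)) →
  (∀ i j k, r i + r j = r k → aeval (r k) q = aeval (r i) q * aeval (r j) q) →
  IsMor c c ℚ (aeval D q) ∧
    (aeval D q).charpoly.map (algebraMap ℚ K) = ∏ i, (X - C (aeval (r i) q))

/-- UNITS: a derivation with distinct real irrational eigenvalues gives an Anosov automorphism. -/
def StmUnits : Prop := ∀ (ι : Type) [Fintype ι] [DecidableEq ι] (c : ι → ι → ι → ℤ)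
  (D : Matrix ι ι ℚ), IsDer c ℚ D → RealDistinct (D.map (algebraMap ℚ ℝ)) →
  (∀ q : ℚ, ¬ D.charpoly.IsRoot q) → ∃ F : Matrix ι ι ℚ, IsMor c c ℚ F ∧ AnosovMat F

/-! ## Reduction modulo primes, lifting, real approximation -/

/-- REDA: a finitely generated subring of the complex numbers maps to a number field. -/
def StmRedA : Prop := ∀ S : Finset ℂ, ∃ (K : Type) (_ : Field K) (_ : NumberField K),
  Nonempty (Algebra.adjoin ℤ (S : Set ℂ) →+* K)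

/-- REDB: a finitely generated subring of a number field maps to `F_p` whenever a certain
polynomial has a root modulo `p`. -/
def StmRedB : Prop := ∀ (K : Type) [Field K] [NumberField K] (T : Finset K),
  ∃ (f : ℤ[X]) (d : ℕ), 0 < f.natDegree ∧ 0 < d ∧ ∀ (p : ℕ) [Fact p.Prime], ¬ p ∣ d →
    (∃ x : ZMod p, (f.map (Int.castRingHom (ZMod p))).IsRoot x) →
    Nonempty (Algebra.adjoin ℤ (T : Set K) →+* ZMod p)

/-- REDC: a nonconstant polynomial has roots modulo arbitrarily large primes. -/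
def StmRedC : Prop := ∀ (f : ℤ[X]), 0 < f.natDegree → ∀ B : ℕ, ∃ (p : ℕ) (_ : Fact p.Prime),
  B < p ∧ ∃ x : ZMod p, (f.map (Int.castRingHom (ZMod p))).IsRoot x

/-- RED: points of finitely generated rings over prime fields. -/
def StmRed : Prop := ∀ (S : Finset ℂ) (L B : ℕ), 0 < L → ∃ (p : ℕ) (_ : Fact p.Prime),
  B < p ∧ L ∣ p - 1 ∧ Nonempty (Algebra.adjoin ℤ (S : Set ℂ) →+* ZMod p)

/-- LIFT: derivations modulo a large prime lift to integral derivations. -/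
def StmLift : Prop := ∀ (ι : Type) [Fintype ι] [DecidableEq ι] (c : ι → ι → ι → ℤ),
  ∃ B : ℕ, ∀ (p : ℕ) [Fact p.Prime], B < p → ∀ D : Matrix ι ι (ZMod p), IsDer c (ZMod p) D →
    ∃ D' : Matrix ι ι ℤ, IsDer c ℤ D' ∧ D'.map (Int.castRingHom (ZMod p)) = D

/-- OPEN: having distinct real eigenvalues is an open condition. -/
def StmOpen : Prop := ∀ (ι : Type) [Fintype ι] [DecidableEq ι] (D : Matrix ι ι ℝ),
  RealDistinct D → ∃ ε > 0, ∀ D' : Matrix ι ι ℝ, (∀ i j, |D' i j - D i j| < ε) → RealDistinct D'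

/-- APX: real derivations are approximated by rational ones. -/
def StmApx : Prop := ∀ (ι : Type) [Fintype ι] [DecidableEq ι] (c : ι → ι → ι → ℤ)
  (D : Matrix ι ι ℝ), IsDer c ℝ D → ∀ ε > 0, ∃ D' : Matrix ι ι ℚ, IsDer c ℚ D' ∧
    ∀ i j, |(D' i j : ℝ) - D i j| < ε

/-! ## The algebra of a graph: derivations modulo `p` without eigenvalues -/

/-- LIN: a pure root of a primitive root has linearly independent powers. -/
def StmLin : Prop := ∀ (p L : ℕ) [Fact p.Prime], 0 < L → L ∣ p - 1 →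
  ∃ g : ZMod p, g ≠ 0 ∧ ∀ (K : Type) [Field K] [Algebra (ZMod p) K] (γ : K),
    γ ^ L = algebraMap (ZMod p) K g →
    LinearIndependent (ZMod p) (fun k : Fin L => γ ^ (k : ℕ))

/-- FLD: the arithmetic of `a (θ + θ²)`, `θ^d = g`. -/
def StmFld : Prop := ∀ (n p : ℕ) [Fact p.Prime], 2 * n < p → n.factorial ∣ p - 1 →
  ∃ g : ZMod p, g ≠ 0 ∧ ∀ (K : Type) [Field K] [Algebra (ZMod p) K] (d : ℕ) (θ : K) (a : ℕ),
    2 ≤ d → d ≤ n → θ ^ d = algebraMap (ZMod p) K g → 1 ≤ a → a ≤ n →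
    (∀ r : ZMod p, a * (θ + θ ^ 2) ≠ algebraMap (ZMod p) K r) ∧
    (∀ (d' : ℕ) (η : K) (b : ℕ), 2 ≤ d' → d' ≤ n → η ^ d' = algebraMap (ZMod p) K g →
      1 ≤ b → b ≤ n → (a ≠ b ∨ (3 ≤ d ∧ d = d')) →
      ∀ r : ZMod p, a * (θ + θ ^ 2) + b * (η + η ^ 2) ≠ algebraMap (ZMod p) K r)

/-- BLK: a block matrix with the eigenvalues `a (θ + θ²)`. -/
def StmBlk : Prop := ∀ (n : ℕ) (s : Setoid (Fin n)) (p : ℕ) [Fact p.Prime] (g : ZMod p), g ≠ 0 →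
  n.factorial ∣ p - 1 → ∃ (K : Type) (_ : Field K) (_ : Algebra (ZMod p) K)
    (Y : Matrix (Fin n) (Fin n) (ZMod p)) (Q : Matrix (Fin n) (Fin n) K) (a : Fin n → ℕ)
    (θ : Fin n → K), (∀ i j, Y j i ≠ 0 → s i j) ∧ (∀ i j, Q j i ≠ 0 → s i j) ∧ IsUnit Q.det ∧
    (∀ i, θ i ^ (Nat.card {j // s i j}) = algebraMap (ZMod p) K g) ∧
    (∀ i, 1 ≤ a i ∧ a i ≤ n) ∧ (∀ i j, a i = a j ↔ s i j) ∧
    Q * Y.map (algebraMap (ZMod p) K) =
      Matrix.diagonal (fun i => (a i : K) * (θ i + θ i ^ 2)) * Q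

/-- EXT: a diagonalisable matrix supported on coherent pairs extends to a derivation of the graph
algebra with the expected eigenvalues. -/
def StmExt : Prop := ∀ (n : ℕ) (G : SimpleGraph (Fin n)) [Fintype G.edgeSet] (F K : Type)
  [Field F] [Field K] [Algebra F K] (Y : Matrix (Fin n) (Fin n) F)
  (Q : Matrix (Fin n) (Fin n) K) (e : Fin n → K),
  (∀ a b, Y b a ≠ 0 → Coh G a b) → (∀ a b, Q b a ≠ 0 → Coh G a b) → IsUnit Q.det →
  Q * Y.map (algebraMap F K) = Matrix.diagonal e * Q →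
  ∃ D : Matrix (Fin n ⊕ G.edgeSet) (Fin n ⊕ G.edgeSet) F, IsDer (cG G) F D ∧
    ∀ r : F, D.charpoly.IsRoot r → (∃ a, e a = algebraMap F K r) ∨
      (∃ a b, G.Adj a b ∧ e a + e b = algebraMap F K r)

/-- MODP: derivations modulo `p` without eigenvalues in the prime field. -/
def StmModp : Prop := ∀ (n : ℕ) (G : SimpleGraph (Fin n)) [Fintype G.edgeSet], Good G →
  ∀ (p : ℕ) [Fact p.Prime], 2 * n < p → n.factorial ∣ p - 1 →
    ∃ D : Matrix (Fin n ⊕ G.edgeSet) (Fin n ⊕ G.edgeSet) (ZMod p), IsDer (cG G) (ZMod p) D ∧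
      ∀ r : ZMod p, ¬ D.charpoly.IsRoot r

/-! ## The algebra of a graph: necessary condition -/

/-- DIAG: a diagonal derivation with distinct integral eigenvalues. -/
def StmDiag : Prop := ∀ (n : ℕ) (G : SimpleGraph (Fin n)) [Fintype G.edgeSet],
  ∃ w : (Fin n ⊕ G.edgeSet) → ℤ, Function.Injective w ∧
    ∀ (R : Type) [CommRing R], IsDer (cG G) R (Matrix.diagonal fun i => (w i : R))

/-- FLAG: no power of an Anosov automorphism has a one-dimensional invariant subquotient. -/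
def StmFlag : Prop := ∀ (ι : Type) [Fintype ι] [DecidableEq ι] (F : Matrix ι ι ℚ)
  (U : Submodule ℚ (ι → ℚ)) (v : ι → ℚ) (k : ℕ), 0 < k → v ∉ U →
  (∀ x ∈ U, (F ^ k) *ᵥ x ∈ U) → (F ^ k) *ᵥ v ∈ U ⊔ Submodule.span ℚ {v} → ¬ AnosovMat F

/-- POW: a power of an automorphism fixes all characteristic subspaces. -/
def StmPow : Prop := ∀ (ι : Type) [Fintype ι] [DecidableEq ι] (c : ι → ι → ι → ℤ) (w : ι → ℚ)
  (F : Matrix ι ι ℚ), Function.Injective w → IsDer c ℚ (Matrix.diagonal w) → IsMor c c ℚ F →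
  IsUnit F.det → ∃ k : ℕ, 0 < k ∧ ∀ U : Submodule ℚ (ι → ℚ), CharSub c U →
    ∀ x ∈ U, (F ^ k) *ᵥ x ∈ U

/-- DERV: derivations of the graph algebra respect the vicinal preorder and the centre part. -/
def StmDerv : Prop := ∀ (n : ℕ) (G : SimpleGraph (Fin n)) [Fintype G.edgeSet]
  (D : Matrix (Fin n ⊕ G.edgeSet) (Fin n ⊕ G.edgeSet) ℚ), IsDer (cG G) ℚ D →
  (∀ a b : Fin n, D (Sum.inl b) (Sum.inl a) ≠ 0 → ∀ x, G.Adj b x → x ≠ a → G.Adj a x) ∧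
  (∀ (b : Fin n) (e : G.edgeSet), D (Sum.inl b) (Sum.inr e) = 0)

/-- SUBQ: if the graph is not good there is a one-dimensional characteristic subquotient. -/
def StmSubq : Prop := ∀ (n : ℕ) (G : SimpleGraph (Fin n)) [Fintype G.edgeSet], ¬ Good G →
  ∃ (U : Submodule ℚ (Fin n ⊕ G.edgeSet → ℚ)) (v : Fin n ⊕ G.edgeSet → ℚ), v ∉ U ∧
    CharSub (cG G) U ∧ CharSub (cG G) (U ⊔ Submodule.span ℚ {v})

/-! ## Lie algebras and matrices -/

/-- LIE: integral structure constants, and automorphisms from matrices. -/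
def StmLie : Prop := ∀ (ι : Type) [Fintype ι] [DecidableEq ι] (M : Type) [LieRing M]
  [LieAlgebra ℚ M] [FiniteDimensional ℚ M] (_b : Module.Basis ι ℚ M),
  ∃ (b' : Module.Basis ι ℚ M) (c : ι → ι → ι → ℤ),
    (∀ i j, ⁅b' i, b' j⁆ = ∑ k, (c i j k : ℚ) • b' k) ∧
    ∀ F : Matrix ι ι ℚ, IsMor c c ℚ F → AnosovMat F →
      ∃ g : M ≃ₗ⁅ℚ⁆ M, ∃ q : Polynomial ℤ,
          q.map (Int.castRingHom ℚ) = LinearMap.charpoly g.toLinearEquiv.toLinearMap ∧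
          (q.coeff 0 = 1 ∨ q.coeff 0 = -1) ∧
          ∀ z : ℂ, (q.map (Int.castRingHom ℂ)).IsRoot z → ‖z‖ ≠ 1

/-- LMAT: the matrix of an isomorphism over an extension field. -/
def StmLmat : Prop := ∀ (ι : Type) [Fintype ι] [DecidableEq ι] (M N : Type) [LieRing M]
  [LieAlgebra ℚ M] [LieRing N] [LieAlgebra ℚ N] (b : Module.Basis ι ℚ M) (b' : Module.Basis ι ℚ N)
  (c c' : ι → ι → ι → ℤ), (∀ i j, ⁅b i, b j⁆ = ∑ k, (c i j k : ℚ) • b k) →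
  (∀ i j, ⁅b' i, b' j⁆ = ∑ k, (c' i j k : ℚ) • b' k) →
  Nonempty ((ℝ ⊗[ℚ] M) ≃ₗ⁅ℝ⁆ (ℝ ⊗[ℚ] N)) →
  ∃ P Q : Matrix ι ι ℝ, P * Q = 1 ∧ Q * P = 1 ∧ IsMor c c' ℝ P ∧ IsMor c' c ℝ Q

end Pool.Agent.N889.AO
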