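import Pool.Agent.N889.AO.Core

/-! # Necessity and the translation to Lie algebras -/

set_option autoImplicit false
open Polynomial Matrix
open scoped TensorProduct

namespace Pool.Agent.N889.AO

theorem good_of_anosov (hDiag : StmDiag) (hFlag : StmFlag) (hPow : StmPow) (hSubq : StmSubq)
    (n : ℕ) (G : SimpleGraph (Fin n)) [Fintype G.edgeSet]
    (F : Matrix (Fin n ⊕ G.edgeSet) (Fin n ⊕ G.edgeSet) ℚ) (hF : IsMor (cG G) (cG G) ℚ F)
    (hdet : IsUnit F.det) (hA : AnosovMat F) : Good G := by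
  by_contra hG
  obtain ⟨U, v, hv, hU, hUv⟩ := hSubq n G hG
  obtain ⟨w, hw, hwD⟩ := hDiag n G
  obtain ⟨k, hk, hkU⟩ := hPow _ (cG G) (fun i => (w i : ℚ)) F
    (fun i j hij => hw (Int.cast_injective hij)) (hwD ℚ) hF hdet
  exact hFlag _ F U v k hk hv (hkU U hU)
    (hkU _ hUv v (Submodule.mem_sup_right (Submodule.mem_span_singleton_self v))) hA

lemma det_isUnit_of_anosov {ι : Type} [Fintype ι] [DecidableEq ι] {F : Matrix ι ι ℚ}
    (hA : AnosovMat F) : IsUnit F.det := by
  obtain ⟨p, hp, h0, -⟩ := hA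
  rw [Matrix.det_eq_sign_charpoly_coeff, isUnit_iff_ne_zero]
  have h1 : F.charpoly.coeff 0 ≠ 0 := by
    rw [← hp, coeff_map]
    rcases h0 with h | h <;> rw [h] <;> simp
  exact mul_ne_zero (pow_ne_zero _ (by norm_num)) h1

theorem final (hUnits : StmUnits) (hRed : StmRed) (hLift : StmLift) (hOpen : StmOpen)
    (hApx : StmApx) (hModp : StmModp) (hDiag : StmDiag) (hFlag : StmFlag) (hPow : StmPow)
    (hSubq : StmSubq) (hLie : StmLie) (hLmat : StmLmat) :
    ∀ (n : ℕ) (G : SimpleGraph (Fin n)) (N : Type) [LieRing N] [LieAlgebra ℚ N]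
      [FiniteDimensional ℚ N] (b : Module.Basis (Fin n ⊕ G.edgeSet) ℚ N),
      (∀ (i j : Fin n) (h : G.Adj i j), i < j →
          ⁅b (Sum.inl i), b (Sum.inl j)⁆ = b (Sum.inr ⟨s(i, j), G.mem_edgeSet.mpr h⟩)) →
      (∀ i j : Fin n, ¬ G.Adj i j → ⁅b (Sum.inl i), b (Sum.inl j)⁆ = 0) →
      (∀ (e : G.edgeSet) (k : Fin n ⊕ G.edgeSet), ⁅b (Sum.inr e), b k⁆ = 0) →
      (∃ f : N ≃ₗ⁅ℚ⁆ N, ∃ p : Polynomial ℤ,
          p.map (Int.castRingHom ℚ) = LinearMap.charpoly f.toLinearEquiv.toLinearMap ∧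
          (p.coeff 0 = 1 ∨ p.coeff 0 = -1) ∧
          ∀ z : ℂ, (p.map (Int.castRingHom ℂ)).IsRoot z → ‖z‖ ≠ 1) →
      ∀ (M : Type) [LieRing M] [LieAlgebra ℚ M] [FiniteDimensional ℚ M],
        Nonempty ((ℝ ⊗[ℚ] M) ≃ₗ⁅ℝ⁆ (ℝ ⊗[ℚ] N)) →
        ∃ g : M ≃ₗ⁅ℚ⁆ M, ∃ q : Polynomial ℤ,
          q.map (Int.castRingHom ℚ) = LinearMap.charpoly g.toLinearEquiv.toLinearMap ∧
          (q.coeff 0 = 1 ∨ q.coeff 0 = -1) ∧
          ∀ z : ℂ, (q.map (Int.castRingHom ℂ)).IsRoot z → ‖z‖ ≠ 1 := by
  intro n G N _ _ _ b h1 h2 h3 hf M _ _ _ hMN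
  classical
  have hfe : Fintype G.edgeSet := Fintype.ofFinite _
  -- structure constants of `N`
  have hc : ∀ i j, ⁅b i, b j⁆ = ∑ k, ((cG G i j k : ℤ) : ℚ) • b k := by
    have hsum : ∀ (i j : Fin n ⊕ G.edgeSet), ∑ k, ((cG G i j k : ℤ) : ℚ) • b k =
        ∑ e : G.edgeSet, ((cG G i j (Sum.inr e) : ℤ) : ℚ) • b (Sum.inr e) := by
      intro i j
      rw [Fintype.sum_sum_type]
      have : ∀ k : Fin n, cG G i j (Sum.inl k) = 0 := by
        intro k
        rcases i with i | i <;> rcases j with j | j <;> rfl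
      simp [this]
    rintro (i | e) j
    · rcases j with j | e
      · rw [hsum]
        -- the case of two vertices, `i < j`
        have key : ∀ i j : Fin n, ∀ h : G.Adj i j, i < j →
            ∑ e : G.edgeSet, ((cG G (Sum.inl i) (Sum.inl j) (Sum.inr e) : ℤ) : ℚ) • b (Sum.inr e) =
              b (Sum.inr ⟨s(i, j), G.mem_edgeSet.mpr h⟩) := by
          intro i j h hij
          rw [Finset.sum_eq_single ⟨s(i, j), G.mem_edgeSet.mpr h⟩]
          · simp [cG, hij]
          · intro e _ he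
            have : ¬ (e.1 = s(i, j)) := fun hh => he (Subtype.ext hh)
            simp [cG, this]
          · intro hh; exact absurd (Finset.mem_univ _) hh
        by_cases h : G.Adj i j
        · rcases lt_or_gt_of_ne h.ne with hij | hij
          · rw [h1 i j h hij, key i j h hij]
          · have h4 : ∀ e : G.edgeSet, cG G (Sum.inl i) (Sum.inl j) (Sum.inr e) =
                - cG G (Sum.inl j) (Sum.inl i) (Sum.inr e) := by
              intro e
              simp only [cG, Sym2.eq_swap (a := i) (b := j)]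
              by_cases h5 : e.1 = s(j, i)
              · simp [h5, hij, not_lt_of_gt hij]
              · simp [h5]
            rw [← lie_skew, h1 j i h.symm hij, ← key j i h.symm hij, ← Finset.sum_neg_distrib]
            refine Finset.sum_congr rfl fun e _ => ?_
            rw [h4 e]
            push_cast
            rw [neg_smul]
        · rw [h2 i j h]
          symm
          refine Finset.sum_eq_zero fun e _ => ?_
          have : ¬ (e.1 = s(i, j)) := by
            intro hh
            have := e.2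
            rw [hh] at this
            exact h this
          simp [cG, this]
      · rw [← lie_skew, h3, hsum]
        simp [cG]
    · rw [h3, hsum]
      rcases j with j | j <;> simp [cG]
  -- the automorphism of `N` as a matrix
  obtain ⟨f, p, hp, hp0, hp1⟩ := hf
  have hcoord : ∀ x y : N, b.equivFun ⁅x, y⁆ = mulc (cG G) ℚ (b.equivFun x) (b.equivFun y) := by
    intro x y
    have hb : (LinearMap.compr₂ (LinearMap.mk₂ ℚ (fun x y : N => ⁅x, y⁆) add_lie smul_lie lie_add
        (fun a x y => lie_smul a x y)) b.equivFun.toLinearMap) =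
        (mulB (cG G) ℚ).compl₁₂ b.equivFun.toLinearMap b.equivFun.toLinearMap := by
      refine b.ext fun i => b.ext fun j => ?_
      simp only [LinearMap.compr₂_apply, LinearMap.compl₁₂_apply, mulB_apply,
        LinearMap.mk₂_apply, LinearEquiv.coe_coe]
      rw [hc i j]
      funext k
      have h5 : b.equivFun (b i) = Pi.single i 1 := by
        funext l; simp [Pi.single_apply, Finsupp.single_apply, eq_comm]
      have h6 : b.equivFun (b j) = Pi.single j 1 := by
        funext l; simp [Pi.single_apply, Finsupp.single_apply, eq_comm]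
      rw [h5, h6, mulc_single, map_sum, Finset.sum_apply, Finset.sum_eq_single k]
      · simp
      · intro l _ hl
        simp [Finsupp.single_apply, hl]
      · intro hh; exact absurd (Finset.mem_univ _) hh
    exact LinearMap.congr_fun (LinearMap.congr_fun hb x) y
  let F : Matrix (Fin n ⊕ G.edgeSet) (Fin n ⊕ G.edgeSet) ℚ :=
    LinearMap.toMatrix b b f.toLinearEquiv.toLinearMap
  have hFv : ∀ x : N, F *ᵥ b.equivFun x = b.equivFun (f x) := by
    intro x
    exact LinearMap.toMatrix_mulVec_repr b b f.toLinearEquiv.toLinearMap x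
  have hFmor : IsMor (cG G) (cG G) ℚ F := by
    intro x y
    obtain ⟨X, rfl⟩ := b.equivFun.surjective x
    obtain ⟨Y, rfl⟩ := b.equivFun.surjective y
    rw [← hcoord, hFv, hFv, hFv, ← hcoord, LieEquiv.map_lie]
  have hFA : AnosovMat F := ⟨p, by rw [hp, LinearMap.charpoly_toMatrix], hp0, hp1⟩
  have hG : Good G :=
    good_of_anosov hDiag hFlag hPow hSubq n G F hFmor (det_isUnit_of_anosov hFA) hFA
  -- a basis of `M`
  have hdim : Module.finrank ℚ M = Fintype.card (Fin n ⊕ G.edgeSet) := by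
    obtain ⟨Φ⟩ := hMN
    have e1 : Module.finrank ℝ (ℝ ⊗[ℚ] M) = Module.finrank ℝ (ℝ ⊗[ℚ] N) :=
      LinearEquiv.finrank_eq Φ.toLinearEquiv
    rw [Module.finrank_baseChange, Module.finrank_baseChange] at e1
    rw [e1, Module.finrank_eq_card_basis b]
  let bM : Module.Basis (Fin n ⊕ G.edgeSet) ℚ M :=
    (Module.finBasisOfFinrankEq ℚ M hdim).reindex (Fintype.equivFin _).symm
  obtain ⟨b', c', hb', hauto⟩ := hLie _ M bM
  obtain ⟨P, Q, hPQ, hQP, hP, hQ⟩ := hLmat _ M N b' b c' (cG G) hb' hc hMN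
  obtain ⟨F', hF', hF'A⟩ := core hUnits hRed hLift hOpen hApx hModp hDiag n G hG c' P Q hPQ hQP hP hQ
  exact hauto F' hF' hF'A

end Pool.Agent.N889.AO
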